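import Pool.Agent.H49.CZ.Stm

/-!
# Project CZ: specialisation of an arrangement (SPC, assembly)
-/

set_option autoImplicit false

open MvPolynomial Module Pool.Agent.H77.TF Pool.Agent.H77.GR

namespace Pool.Agent.H76.CZ

open Pool.Agent.H49.CZ

theorem t_SPC (hHOM : S_HOM) (hLFT : S_LFT) (hTRP : S_TRP) (hDSC : S_DSC) (hBIG : S_BIG) : S_SPC := by
  classical
  intro K _ _ n a b A hA hn hchar
  obtain ⟨F1, h1⟩ := hTRP K n A hA
  obtain ⟨F2, h2⟩ := hBIG K a b hchar
  have hL := fun m => hLFT K n A m hA.1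
  choose FL hFL using hL
  let F0 : Finset K := Finset.univ.image fun p : Fin n × Fin 3 => A p.1 p.2
  let F : Finset K := F0 ∪ (F1 ∪ (F2 ∪ (FL 1 ∪ (FL a ∪ FL b))))
  obtain ⟨k, ik, fk, ⟨φ⟩⟩ := hHOM K F
  have hsub : ∀ F' : Finset K, F' ⊆ F → (F' : Set K) ⊆ Subring.closure (F : Set K) := fun F' h x hx =>
    Subring.subset_closure (h hx)
  have hF0 : F0 ⊆ F := fun x hx => by simp only [F, Finset.mem_union]; tauto
  have hF1 : F1 ⊆ F := fun x hx => by simp only [F, Finset.mem_union]; tauto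
  have hF2 : F2 ⊆ F := fun x hx => by simp only [F, Finset.mem_union]; tauto
  have hF3 : FL 1 ⊆ F := fun x hx => by simp only [F, Finset.mem_union]; tauto
  have hF4 : FL a ⊆ F := fun x hx => by simp only [F, Finset.mem_union]; tauto
  have hF5 : FL b ⊆ F := fun x hx => by simp only [F, Finset.mem_union]; tauto
  have hA0 : ∀ i j, A i j ∈ Subring.closure (F : Set K) := fun i j =>
    hsub F0 hF0 (by
      refine Finset.mem_coe.2 (Finset.mem_image.2 ⟨(i, j), Finset.mem_univ _, rfl⟩))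
  let AR : Fin n → Fin 3 → Subring.closure (F : Set K) := fun i j => ⟨A i j, hA0 i j⟩
  have hAR : mapA (Subring.closure (F : Set K)).subtype AR = A := rfl
  obtain ⟨hS, hSame⟩ := h1 _ AR (hsub F1 hF1) hAR k φ
  obtain ⟨hc, hb⟩ := h2 _ (hsub F2 hF2) k φ
  refine ⟨k, ik, fk, mapA φ AR, hS, hSame, hc, hb, fun hE => ?_⟩
  refine hDSC K n A ![1, a, b] hA ?_ _ AR hAR k φ ?_ hE
  · rw [Fin.sum_univ_three]
    exact hn.symm
  · intro j
    have hj : j = 0 ∨ j = 1 ∨ j = 2 := by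
      fin_cases j <;> simp
    rcases hj with rfl | rfl | rfl
    · exact hFL 1 _ AR (hsub _ hF3) hAR k φ
    · exact hFL a _ AR (hsub _ hF4) hAR k φ
    · exact hFL b _ AR (hsub _ hF5) hAR k φ

end Pool.Agent.H76.CZ
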